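import Pool.Agent.Helper89.OS.St2

/-!
# OS MODULE CMB (MP_2b6189_al): the combinatorial part
-/

set_option autoImplicit false

namespace Pool.Agent.Helper40.OS

open Pool.Agent.Helper89.OS

theorem dvd_card_of_orbits {I : Type} [DecidableEq I] (O : I → Finset I) (S : Finset I) (g : ℤ)
    (h1 : ∀ k ∈ S, O k ⊆ S) (h2 : ∀ k ∈ S, k ∈ O k) (h3 : ∀ k ∈ S, ∀ j ∈ O k, O j = O k)
    (h4 : ∀ k ∈ S, g ∣ ((O k).card : ℤ)) : g ∣ (S.card : ℤ) := by
  have h := Finset.card_eq_sum_card_fiberwise (f := O) (s := S) (t := S.image O)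
    (fun x hx => Finset.mem_image_of_mem O hx)
  rw [h, Nat.cast_sum]
  apply Finset.dvd_sum
  intro T hT
  obtain ⟨k, hk, rfl⟩ := Finset.mem_image.1 hT
  have : S.filter (fun a => O a = O k) = O k := by
    ext a
    rw [Finset.mem_filter]
    constructor
    · rintro ⟨ha, hO⟩
      rw [← hO]; exact h2 a ha
    · intro ha
      exact ⟨h1 k hk ha, h3 k hk a ha⟩
  rw [this]
  exact h4 k hk

theorem even_card_of_invol {I : Type} [DecidableEq I] (S : Finset I) (st : I → I)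
    (h1 : ∀ k ∈ S, st k ∈ S) (h2 : ∀ k, st (st k) = k) (h3 : ∀ k ∈ S, st k ≠ k) :
    Even S.card := by
  have h : ∑ _k ∈ S, (1 : ZMod 2) = 0 := by
    refine Finset.sum_involution (fun k _ => st k) ?_ ?_ ?_ ?_
    · intro k hk; decide
    · intro k hk _; exact h3 k hk
    · intro k hk; exact h1 k hk
    · intro k hk; exact h2 k
  rw [Finset.sum_const, nsmul_eq_mul, mul_one] at h
  rw [ZMod.natCast_eq_zero_iff] at h
  exact even_iff_two_dvd.2 h

theorem hCMB : StCMB := by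
  intro I _ p C hp
  by_contra hcon
  push Not at hcon
  have hpp : Prime (p : ℤ) := by
    rcases hp with rfl | rfl
    · exact Nat.prime_iff_prime_int.1 Nat.prime_three
    · exact Nat.prime_iff_prime_int.1 Nat.prime_five
  have hg2 := C.g_ge
  have hgp := C.g_le
  have hpg : ((p : ℤ) = 3 ∧ C.g = 2) ∨ ((p : ℤ) = 5 ∧ C.g = 2) ∨ ((p : ℤ) = 5 ∧ C.g = 4) := by
    rcases hp with rfl | rfl
    · left
      refine ⟨by norm_num, ?_⟩
      push_cast at hgp
      omega
    · right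
      obtain ⟨r, hr⟩ := C.g_even
      have h : C.g = 2 ∨ C.g = 4 := by
        push_cast at hgp
        omega
      rcases h with h | h
      · exact Or.inl ⟨by norm_num, h⟩
      · exact Or.inr ⟨by norm_num, h⟩
  have hD0 : C.D ≠ 0 := fun h => C.pD (h ▸ dvd_zero _)
  obtain ⟨A, hA⟩ : ∃ A : ℤ, A = |C.D| := ⟨_, rfl⟩
  have hA0 : 0 < A := by rw [hA]; exact abs_pos.2 hD0
  obtain ⟨e, he, heA⟩ : ∃ e : ℤ, (e = 1 ∨ e = -1) ∧ C.D = e * A := by
    rcases abs_choice C.D with h | h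
    · exact ⟨1, Or.inl rfl, by rw [hA, h, one_mul]⟩
    · exact ⟨-1, Or.inr rfl, by rw [hA, h]; ring⟩
  have hAD : A ∣ C.D := by rw [hA]; exact (abs_dvd _ _).2 dvd_rfl
  have hDA : ∀ c : ℤ, c ∣ A → c ∣ C.D := fun c hc => hc.trans hAD
  have hdA : ∀ k ∈ C.K, (C.d k : ℤ) ∣ A := fun k hk => by
    rw [hA]; exact (dvd_abs _ _).2 (C.dvd k hk)
  have hpA : ¬ (p : ℤ) ∣ A := fun h => C.pD (hDA _ h)
  have hKne : C.K.Nonempty := by
    rw [Finset.nonempty_iff_ne_empty]
    intro h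
    have h1 := C.sq
    rw [h, Finset.sum_empty] at h1
    rcases hpg with ⟨h, h'⟩ | ⟨h, h'⟩ | ⟨h, h'⟩ <;> rw [h, h'] at h1 <;> norm_num at h1
  obtain ⟨k1, hk1⟩ := hKne
  have hA1 : 1 < A := by
    by_contra h
    have hA1 : A = 1 := by omega
    have h2 := hdA k1 hk1
    rw [hA1] at h2
    have h3 := Int.eq_one_of_dvd_one (Int.natCast_nonneg _) h2
    exact hcon k1 hk1 (by exact_mod_cast h3)
  have hAp : (p : ℤ) < A := C.big A hAD hA1
  have hsm : ∀ k ∈ C.K, (C.d k : ℤ) ≠ A → ((p : ℤ) + 1) * C.d k ≤ A := by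
    intro k hk hne
    obtain ⟨a, ha⟩ := hdA k hk
    have hd' : (0 : ℤ) < C.d k := by exact_mod_cast C.d_pos k
    have ha0 : 0 < a := by
      by_contra h
      have : (C.d k : ℤ) * a ≤ 0 := mul_nonpos_of_nonneg_of_nonpos hd'.le (by omega)
      omega
    have ha1 : a ≠ 1 := by rintro rfl; apply hne; rw [ha, mul_one]
    have ha2 := C.big a (hDA _ (ha ▸ dvd_mul_left a _)) (by omega)
    rw [ha]; nlinarith
  have h2sq : ∀ k ∈ C.K, 2 * C.y k ^ 2 ≤ C.g * (p + 1 - C.g) := by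
    intro k hk
    rw [← C.sq]
    have hsub : ({k, C.st k} : Finset I) ⊆ C.K := by
      intro x hx
      rw [Finset.mem_insert, Finset.mem_singleton] at hx
      rcases hx with h | h
      · rw [h]; exact hk
      · rw [h]; exact C.st_K k hk
    have h1 := Finset.sum_le_sum_of_subset_of_nonneg hsub (f := fun k => C.y k ^ 2)
      (fun i _ _ => sq_nonneg _)
    rw [Finset.sum_pair (fun h => C.st_ne k hk h.symm), (C.st_y k).1] at h1
    linarith
  have hy1 : ∀ k ∈ C.K, (C.d k : ℤ) = A → C.y k = e := by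
    intro k hk hd
    have hr := C.rel k hk
    rw [hd, heA] at hr
    have h1 : (p : ℤ) ∣ A * (1 - e * C.y k) := ⟨C.z k, by linarith⟩
    obtain ⟨w, hw⟩ := (hpp.dvd_or_dvd h1).resolve_left hpA
    have h3 := h2sq k hk
    have h4 := C.y_ne k hk
    clear hr h1
    generalize C.y k = Y at *
    rcases hpg with ⟨h, h'⟩ | ⟨h, h'⟩ | ⟨h, h'⟩
    · rw [h, h'] at h3
      rw [h] at hw
      have hb1 : -1 ≤ Y := by nlinarith
      have hb2 : Y ≤ 1 := by nlinarith
      rcases he with rfl | rfl <;> interval_cases Y <;> omega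
    · rw [h, h'] at h3
      rw [h] at hw
      have hb1 : -2 ≤ Y := by nlinarith
      have hb2 : Y ≤ 2 := by nlinarith
      rcases he with rfl | rfl <;> interval_cases Y <;> omega
    · rw [h, h'] at h3
      rw [h] at hw
      have hb1 : -2 ≤ Y := by nlinarith
      have hb2 : Y ≤ 2 := by nlinarith
      rcases he with rfl | rfl <;> interval_cases Y <;> omega
  have he2 : e * e = 1 := by rcases he with rfl | rfl <;> norm_num
  obtain ⟨Big, hBig⟩ : ∃ Big, Big = C.K.filter (fun k => (C.d k : ℤ) = A) := ⟨_, rfl⟩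
  obtain ⟨Sm, hSm⟩ : ∃ Sm, Sm = C.K.filter (fun k => ¬ (C.d k : ℤ) = A) := ⟨_, rfl⟩
  have hsplit : ∀ f : I → ℤ, ∑ k ∈ C.K, f k = ∑ k ∈ Big, f k + ∑ k ∈ Sm, f k := by
    intro f
    rw [hBig, hSm, Finset.sum_filter_add_sum_filter_not]
  have mBig : ∀ k, k ∈ Big ↔ k ∈ C.K ∧ (C.d k : ℤ) = A := by
    intro k; rw [hBig, Finset.mem_filter]
  have mSm : ∀ k, k ∈ Sm ↔ k ∈ C.K ∧ ¬ (C.d k : ℤ) = A := by
    intro k; rw [hSm, Finset.mem_filter]
  have hOBig : ∀ k ∈ Big, C.O k ⊆ Big := by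
    intro k hk j hj
    rw [mBig] at hk ⊢
    exact ⟨C.O_K k hk.1 hj, by rw [(C.O_y k hk.1 j hj).2]; exact hk.2⟩
  have hOSm : ∀ k ∈ Sm, C.O k ⊆ Sm := by
    intro k hk j hj
    rw [mSm] at hk ⊢
    exact ⟨C.O_K k hk.1 hj, by rw [(C.O_y k hk.1 j hj).2]; exact hk.2⟩
  have hgO : ∀ k ∈ Big, C.g ∣ ((C.O k).card : ℤ) := by
    intro k hk
    rw [mBig] at hk
    have h1 := C.O_g k hk.1
    rw [hy1 k hk.1 hk.2] at h1
    have h2 := Dvd.dvd.mul_right h1 e
    rwa [mul_assoc, he2, mul_one] at h2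
  have hgBig : C.g ∣ (Big.card : ℤ) :=
    dvd_card_of_orbits C.O Big C.g hOBig (fun k hk => C.O_self k ((mBig k).1 hk).1)
      (fun k hk => C.O_eq k ((mBig k).1 hk).1) hgO
  have hsq := C.sq
  rw [hsplit] at hsq
  have hsqB : ∑ k ∈ Big, C.y k ^ 2 = Big.card := by
    rw [Finset.sum_congr rfl (g := fun _ => (1 : ℤ)), Finset.sum_const, nsmul_eq_mul, mul_one]
    intro k hk
    rw [mBig] at hk
    rw [hy1 k hk.1 hk.2, sq, he2]
  have hdimB : ∑ k ∈ Big, C.y k * (C.d k : ℤ) = Big.card * C.D := by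
    rw [Finset.sum_congr rfl (g := fun _ => C.D), Finset.sum_const, nsmul_eq_mul]
    intro k hk
    rw [mBig] at hk
    rw [hy1 k hk.1 hk.2, hk.2, heA]
  have hdim := C.dim
  rw [hsplit, hdimB] at hdim
  obtain ⟨S1, hS1⟩ : ∃ S1 : ℤ, S1 = ∑ k ∈ Sm, C.y k * (C.d k : ℤ) := ⟨_, rfl⟩
  rw [← hS1] at hdim
  obtain ⟨S2, hS2⟩ : ∃ S2 : ℤ, S2 = ∑ k ∈ Sm, C.y k ^ 2 := ⟨_, rfl⟩
  rw [← hS2, hsqB] at hsq
  have hbound : |S1| * (p + 1) ≤ A * S2 := by
    rw [hS1, hS2, Finset.mul_sum]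
    refine le_trans (mul_le_mul_of_nonneg_right (Finset.abs_sum_le_sum_abs _ _) (by positivity)) ?_
    rw [Finset.sum_mul]
    apply Finset.sum_le_sum
    intro k hk
    rw [mSm] at hk
    have h1 := hsm k hk.1 hk.2
    have h2 : |C.y k| ≤ C.y k ^ 2 := by
      have h3 := Int.one_le_abs (C.y_ne k hk.1)
      rw [← sq_abs]
      nlinarith
    rw [abs_mul, abs_of_nonneg (Int.natCast_nonneg (C.d k))]
    calc |C.y k| * (C.d k : ℤ) * (p + 1) = |C.y k| * (((p : ℤ) + 1) * C.d k) := by ring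
      _ ≤ |C.y k| * A := mul_le_mul_of_nonneg_left h1 (abs_nonneg _)
      _ ≤ C.y k ^ 2 * A := mul_le_mul_of_nonneg_right h2 hA0.le
      _ = A * C.y k ^ 2 := by ring
  have hBg : (Big.card : ℤ) = C.g := by
    by_contra hne
    have h1 : C.g ∣ C.g - Big.card := dvd_sub_self_left.2 hgBig
    have h2 : C.g ≤ |C.g - Big.card| := by
      have h3 : C.g ∣ |C.g - Big.card| := (dvd_abs _ _).2 h1
      exact Int.le_of_dvd (abs_pos.2 (sub_ne_zero.2 (Ne.symm hne))) h3
    have h4 : C.D * (C.g - Big.card) = S1 - C.g := by linarith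
    have h5 : A * |C.g - Big.card| ≤ |S1| + C.g := by
      rw [hA, ← abs_mul, h4]
      refine le_trans (abs_sub _ _) ?_
      rw [abs_of_pos (by omega : 0 < C.g)]
    have h6 : A * C.g ≤ |S1| + C.g := le_trans (mul_le_mul_of_nonneg_left h2 hA0.le) h5
    have h7 : S2 ≤ C.g * (p + 1 - C.g) := by
      have : (0 : ℤ) ≤ Big.card := Int.natCast_nonneg _
      linarith
    have h8 : |S1| * (p + 1) ≤ A * (C.g * (p + 1 - C.g)) :=
      le_trans hbound (mul_le_mul_of_nonneg_left h7 hA0.le)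
    rcases hpg with ⟨h, h'⟩ | ⟨h, h'⟩ | ⟨h, h'⟩ <;> rw [h, h'] at h8 <;> rw [h'] at h6 <;>
      rw [h] at hAp <;> nlinarith
  have hS1g : S1 = C.g := by
    rw [hBg] at hdim
    linarith
  have hS2g : S2 = C.g * (p - C.g) := by
    rw [hBg] at hsq
    linarith
  have hBne : Big.Nonempty := by
    rw [← Finset.card_pos]
    have : (0 : ℤ) < Big.card := by omega
    exact_mod_cast this
  obtain ⟨k0, hk0⟩ := hBne
  have hO0 : C.O k0 = Big := by
    apply Finset.eq_of_subset_of_card_le (hOBig k0 hk0)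
    have h1 : 0 < (C.O k0).card := Finset.card_pos.2 ⟨k0, C.O_self k0 ((mBig k0).1 hk0).1⟩
    have h2 := Int.le_of_dvd (by exact_mod_cast h1) (hgO k0 hk0)
    have h3 : (Big.card : ℤ) ≤ (C.O k0).card := by omega
    exact_mod_cast h3
  -- orbit data for an element of Sm
  have hypos : ∀ k ∈ Sm, 1 ≤ C.y k ^ 2 := by
    intro k hk
    rw [mSm] at hk
    have := C.y_ne k hk.1
    have h2 : 0 < C.y k ^ 2 := by positivity
    omega
  have case5 : (p : ℤ) - C.g = 1 → False := by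
    intro hpg1
    rw [hpg1, mul_one] at hS2g
    have hne : Sm.Nonempty := by
      rw [Finset.nonempty_iff_ne_empty]
      intro h
      rw [h, Finset.sum_empty] at hS2
      omega
    obtain ⟨k, hk⟩ := hne
    have hkK := ((mSm k).1 hk).1
    have hsumO : ∑ j ∈ C.O k, C.y j ^ 2 = (C.O k).card * C.y k ^ 2 := by
      rw [Finset.sum_congr rfl (g := fun _ => C.y k ^ 2), Finset.sum_const, nsmul_eq_mul]
      intro j hj
      rw [(C.O_y k hkK j hj).1]
    have hle : ∑ j ∈ C.O k, C.y j ^ 2 ≤ S2 := by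
      rw [hS2]
      exact Finset.sum_le_sum_of_subset_of_nonneg (hOSm k hk) (fun i _ _ => sq_nonneg _)
    rw [hsumO, hS2g] at hle
    have hc1 : (0 : ℤ) < (C.O k).card := by
      have : 0 < (C.O k).card := Finset.card_pos.2 ⟨k, C.O_self k hkK⟩
      exact_mod_cast this
    have hy := Int.one_le_abs (C.y_ne k hkK)
    have h1 : C.g ≤ (C.O k).card * |C.y k| := by
      have h2 : C.g ∣ |((C.O k).card : ℤ) * C.y k| := (dvd_abs _ _).2 (C.O_g k hkK)
      rw [abs_mul, abs_of_pos hc1] at h2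
      exact Int.le_of_dvd (mul_pos hc1 (lt_of_lt_of_le one_pos hy)) h2
    have hy1' : |C.y k| = 1 := by
      by_contra hne
      have h3 : 2 ≤ |C.y k| := by omega
      rw [← sq_abs] at hle
      nlinarith
    rw [hy1', mul_one] at h1
    rw [← sq_abs, hy1', one_pow, mul_one] at hle
    have hcg : ((C.O k).card : ℤ) = C.g := le_antisymm hle h1
    have hSmO : Sm = C.O k := by
      by_contra hne
      have hss : C.O k ⊂ Sm := Finset.ssubset_iff_subset_ne.2 ⟨hOSm k hk, fun h => hne h.symm⟩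
      obtain ⟨j, hj, hjn⟩ := Finset.exists_of_ssubset hss
      have h3 : ∑ i ∈ C.O k, C.y i ^ 2 < ∑ i ∈ Sm, C.y i ^ 2 :=
        Finset.sum_lt_sum_of_subset (hOSm k hk) hj hjn (by have := hypos j hj; omega)
          (fun i _ _ => sq_nonneg _)
      rw [hsumO, ← hS2, hS2g, ← sq_abs, hy1', one_pow, mul_one, hcg] at h3
      exact lt_irrefl _ h3
    rw [hSmO] at hS1
    have h4 : ∑ j ∈ C.O k, C.y j * (C.d j : ℤ) = (C.O k).card * (C.y k * C.d k) := by
      rw [Finset.sum_congr rfl (g := fun _ => C.y k * (C.d k : ℤ)), Finset.sum_const, nsmul_eq_mul]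
      intro j hj
      rw [(C.O_y k hkK j hj).1, (C.O_y k hkK j hj).2]
    rw [h4, hS1g, hcg] at hS1
    have h5 : C.y k * (C.d k : ℤ) = 1 := by
      have h6 : C.g * (C.y k * (C.d k : ℤ)) = C.g * 1 := by rw [mul_one]; exact hS1.symm
      exact mul_left_cancel₀ (by omega : C.g ≠ 0) h6
    have h7 : (C.d k : ℤ) ∣ 1 := ⟨C.y k, by rw [mul_comm]; exact h5.symm⟩
    have h8 := Int.eq_one_of_dvd_one (Int.natCast_nonneg _) h7
    exact hcon k hkK (by exact_mod_cast h8)
  rcases hpg with ⟨h, h'⟩ | ⟨h, h'⟩ | ⟨h, h'⟩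
  · exact case5 (by omega)
  · have hm := C.muk k0 ((mBig k0).1 hk0).1 (by
      rw [hy1 k0 ((mBig k0).1 hk0).1 ((mBig k0).1 hk0).2, sq, he2]) (by rw [hO0]; exact hBg)
    have hKB : C.K \ C.O k0 = Sm := by
      rw [hO0]
      ext j
      rw [Finset.mem_sdiff, mBig, mSm]
      tauto
    rw [hKB] at hm
    have hp5 : p = 5 := by exact_mod_cast h
    rw [hp5] at hm
    have hev : Even Sm.card := by
      apply even_card_of_invol Sm C.st
      · intro k hk
        rw [mSm] at hk ⊢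
        exact ⟨C.st_K k hk.1, by rw [(C.st_y k).2]; exact hk.2⟩
      · exact C.st_st
      · intro k hk
        exact C.st_ne k ((mSm k).1 hk).1
    rw [h, h'] at hS2g
    have h3 : (3 : ℤ) ∣ ∑ k ∈ Sm, (C.y k ^ 2 - 1) := by
      apply Finset.dvd_sum
      intro k hk
      have h4 := h2sq k ((mSm k).1 hk).1
      have h5 := C.y_ne k ((mSm k).1 hk).1
      rw [h, h'] at h4
      generalize C.y k = Y at *
      have hb1 : -2 ≤ Y := by nlinarith
      have hb2 : Y ≤ 2 := by nlinarith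
      interval_cases Y <;> omega
    rw [Finset.sum_sub_distrib, ← hS2, hS2g, Finset.sum_const, nsmul_eq_mul, mul_one] at h3
    obtain ⟨r, hr⟩ := hev
    have h6 : Sm.card = 0 := by omega
    rw [Finset.card_eq_zero] at h6
    rw [h6, Finset.sum_empty] at hS2
    omega
  · exact case5 (by omega)

end Pool.Agent.Helper40.OS
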